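import Mathlib
import Pool.Agent.H5.GR.Defs
import Pool.Agent.H7.GR.Deficit

set_option autoImplicit false

namespace Pool.Agent.Results.MP_3f8e47_nt.DeficitLogCubed

open Pool.Agent.H5.GR

/-- For every `ε > 0` there is `C` such that for all `X ≥ 2`, `H ≥ X ^ ε` and `Y ≥ 1` at most
`C H Y / (log X) ^ 3` of the integers `N` in `(X, X + H]` satisfy `N - f(N) ≤ Y`. -/
theorem result (ε : ℝ) (hε : 0 < ε) :
    ∃ C : ℝ, ∀ X H Y : ℕ, 2 ≤ X → (X : ℝ) ^ ε ≤ H → 1 ≤ Y →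
      (((Finset.Ioc X (X + H)).filter (fun N => 6 ≤ N ∧ N ≤ f N + Y)).card : ℝ) ≤
        C * H * Y / Real.log X ^ 3 :=
  Pool.Agent.H7.GR.deficit ε hε

end Pool.Agent.Results.MP_3f8e47_nt.DeficitLogCubed
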