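import Mathlib
import Pool.Agent.H5.GR.Defs
import Pool.Agent.H75H.Final

set_option autoImplicit false

namespace Pool.Agent.Results.MP_3f8e47_nt.ExpCubeRoot

open Pool.Agent.H5.GR

/-- `f(N) ≥ √N · exp ((log N)^(1/3) / 100)` for all large `N` -/
theorem result : ∃ N₀ : ℕ, ∀ N : ℕ, N₀ ≤ N →
    Real.sqrt N * Real.exp (Real.log N ^ ((1 : ℝ) / 3) / 100) ≤ (f N : ℝ) :=
  Pool.Agent.H75H.main3

end Pool.Agent.Results.MP_3f8e47_nt.ExpCubeRoot
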