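import Mathlib
import Pool.Agent.H5.GR.Defs
import Pool.Agent.H52G.Dyn

set_option autoImplicit false

namespace Pool.Agent.Results.MP_3f8e47_nt.PowerDeficit

open Pool.Agent.H5.GR

open Classical in
/-- There are `κ > 0` and `H₀` such that for all naturals `X` and `H ≥ H₀` at least
`κ H / (log H) ^ 3` of the integers `N ≥ 6` in `(X, X + H]` satisfy `N - f(N) ≥ H ^ (1 / 20)`. -/
theorem result :
    ∃ κ : ℝ, 0 < κ ∧ ∃ H₀ : ℕ, ∀ X H : ℕ, H₀ ≤ H →
      κ * (H / Real.log H ^ 3) ≤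
        (((Finset.Ioc X (X + H)).filter
          (fun N : ℕ => 6 ≤ N ∧ (H : ℝ) ^ (1 / 20 : ℝ) ≤ (N : ℝ) - f N)).card : ℝ) :=
  Pool.Agent.H52G.power_deficit

end Pool.Agent.Results.MP_3f8e47_nt.PowerDeficit
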