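import Pool.Agent.TS33.Fin43
import Pool.Agent.TS57.Theta

/-!
# MP_3f8e47_nt: a prime triple follows, or `f(N) ≤ θ(N) N`, with `θ(N) → 3/4`

The definitions (file TS33/Base): `b n = 2, 6, 0` for `n ≡ 1, 2, 0 (mod 3)`, `a N n` is the sequence of the problem (with a
dummy value at `0`) and `f N` is the least `n ≥ 1` with `a N n = 0`.
-/

set_option autoImplicit false

namespace Pool.Agent.Results.MP_3f8e47_nt.TripleOrSmall

open Pool.Agent.TS33

/-- There are thresholds `θ(N)` with limit `3 / 4`, and at most `7 / 9 + (2 / 3) √(N + 2) / N` for every `N ≥ 6`, such that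
for every `N ≥ 6` with `f(N) > θ(N) N` the three numbers `f(N) + 1`, `f(N) + 3`, `f(N) + 7` are prime. -/
theorem result : ∃ θ : ℕ → ℝ, Filter.Tendsto θ Filter.atTop (nhds (3 / 4)) ∧
    (∀ N : ℕ, 6 ≤ N → θ N ≤ 7 / 9 + 2 / 3 * (Real.sqrt (N + 2) / N)) ∧
    ∀ N : ℕ, 6 ≤ N → θ N * N < f N → (f N + 1).Prime ∧ (f N + 3).Prime ∧ (f N + 7).Prime :=
  Pool.Agent.TS57.theta (T := fun N => (f N + 1).Prime ∧ (f N + 3).Prime ∧ (f N + 7).Prime)
    (fun N hN hT => by
      by_contra h
      exact hT (explicit N hN (by omega)))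
    (fun e he => three_quarters he)

end Pool.Agent.Results.MP_3f8e47_nt.TripleOrSmall
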